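import Pool.Agent.FJ.NUM

/-!
# Very ampleness of `O(d) ⊗ π^* (K_C ⊗ det E ⊗ B)` on `ℙ(E)` from slopes

The vanishing theorem of `Pool/Agent/FJ/NUM.lean` with general numerical hypotheses.
-/

set_option linter.unusedSectionVars false

namespace Pool.Agent.HF

open Pool.Agent.Helper38.Scroll Matrix Module Pool.Agent.FJ

variable {k K : Type} [Field k] [Field K] [Algebra (RatFunc k) K] [Algebra k K]
  [IsScalarTower k (RatFunc k) K] [IsAlgClosed k] [CharZero k] [FiniteDimensional (RatFunc k) K]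
  {n : ℕ}

/-- The numerical condition: for each `r` there is a lower bound `y` for the slopes of the quotient
bundles of rank at most `r` with `r ((e + 1) y + deg E + deg B) > 2`. -/
def NumCond (g : Option k → Matrix (Fin n) (Fin n) K) (β : Option k → K) (e : ℕ) : Prop :=
  ∀ r : ℕ, 0 < r → r ≤ n → ∃ y : ℚ, (∀ s : ℕ, 0 < s → s ≤ r → ∀ A : Matrix (Fin s) (Fin n) K,
    A.rank = s → ∀ h : Option k → Matrix (Fin s) (Fin s) K, IsQuotientBundle g A h →
      y * s ≤ degree h) ∧ 2 < r * ((e + 1) * y + degree g + lineDegree β)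

/-- **The vanishing theorem.** -/
theorem vanishing (Q : Conditions k K n) {g : Option k → Matrix (Fin n) (Fin n) K}
    (hg : IsBundle g) {w : Option k → K} (hw : ∀ a, IsCanonicalGenerator a (w a))
    {β : Option k → K} (hβ : IsLineBundle β) {e : ℕ} (hnum : NumCond g β e)
    (hc : ∑ᶠ a, Q.c a ≤ 2) (hτ : IsTwist fun a => w a * (g a).det * β a) (u : Forms K n e) :
    u ∈ (latFam Q hg e hτ).W0 ⊔ (latFam Q hg e hτ).Wi := by
  by_contra hu
  obtain ⟨φ, hφ0, hφ⟩ := exists_phi Q hg e hτ hw hu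
  set γ : Option k → K := fun a => (g a).det * β a with hγ
  have hγ0 : ∀ a, γ a ≠ 0 := fun a => mul_ne_zero (hg.1 a) (hβ.1 a)
  have claim2 : ∀ a, ∀ v ∈ Q.Λ a, ∀ y : Fin e → Fin n → regRing k K a,
      γ a * φ (lin (opMap a (g a) v) * ∏ l, lin (opMap a (g a) (y l))) ∈ regRing k K a := by
    intro a v hv y
    obtain ⟨b, hb, hbe⟩ := hφ a (lin v * ∏ l, lin (y l))
      (Submodule.subset_span ⟨v, hv, _, prod_lin_isHomogeneous y, rfl⟩)
    rw [locMap_lin_mul_prod, ← MvPolynomial.smul_eq_C_mul, map_smul, smul_eq_mul, mul_assoc (w a),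
      mul_assoc] at hbe
    rw [← mul_left_cancel₀ (hw a).1 hbe] at hb
    exact hb
  obtain ⟨r, hr, A, R, hAR, hker, hdet⟩ := exists_factor φ hφ0
  obtain ⟨Θ, hΘ0, hΘ, halt⟩ := exists_theta φ hAR hker hdet
  obtain ⟨H₀, hH₀⟩ := exists_quotientBundle hg hAR
  have hH₁ : ∀ a, ∃ h : Matrix (Fin r) (Fin r) K, h.det ≠ 0 ∧
      lattice a h = (Q.Λ a).map (opMap a (A * g a)) := by
    intro a
    have hR : A * g a * ((g a)⁻¹ * R) = 1 := by
      rw [Matrix.mul_assoc, ← Matrix.mul_assoc (g a),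
        Matrix.mul_nonsing_inv _ (isUnit_iff_ne_zero.mpr (hg.1 a)), Matrix.one_mul, hAR]
    exact exists_frame_opMap a hR (Q.Λ a) (Q.absorb a)
  choose H₁ hH₁d hH₁l using hH₁
  have hl₀ : ∀ a, lattice a (H₀ a) = LinearMap.range (opMap a (A * g a)) := by
    intro a
    rw [(hH₀ a).2, lattice_map]
  have claim5 : ∀ a, ordOver a (H₁ a).det ≤ ordOver a (H₀ a).det + Q.c a := by
    intro a
    apply ordOver_det_le a (hH₀ a).1 (hH₁d a)
    · rw [hH₁l, hl₀ a]
      exact LinearMap.map_le_range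
    · have h2 := (Q.codim a).image ((opMap a (A * g a)).restrictScalars k)
      rw [hH₁l, hl₀ a]
      rw [Set.image_univ] at h2
      exact h2
  have hH₀b : IsBundle H₀ := quotient_isBundle hg hAR hH₀
  set ν : Option k → K := fun a => (γ a)⁻¹ ^ r * ((H₀ a).det * ((H₁ a).det)⁻¹) with hν
  have hν0 : ∀ a, ν a ≠ 0 := fun a => mul_ne_zero (pow_ne_zero _ (inv_ne_zero (hγ0 a)))
    (mul_ne_zero (hH₀ a).1 (inv_ne_zero (hH₁d a)))
  have hfin : {a | ¬ (Curve.Regular a (ν a) ∧ Curve.Regular a (ν a)⁻¹)}.Finite := by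
    refine (((hg.2.union hβ.2).union hH₀b.2).union Q.fin).subset ?_
    intro a ha
    by_contra hcon
    simp only [Set.mem_union, Set.mem_ofPred_eq, not_or, not_not] at hcon
    obtain ⟨⟨⟨h1, h2⟩, h3⟩, h4⟩ := hcon
    apply ha
    have h5 := mem_regRing_inv_of_lattice_eq (hg.1 a) h1
    have h6 := mem_regRing_inv_of_lattice_eq (hH₀ a).1 h3
    have h7 : lattice a (H₁ a) = lattice a 1 := by
      rw [hH₁l, h4, Submodule.map_top, ← hl₀ a, h3]
    have h8 := mem_regRing_inv_of_lattice_eq (hH₁d a) h7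
    have h2' : β a ∈ regRing k K a ∧ (β a)⁻¹ ∈ regRing k K a := h2
    constructor
    · change ν a ∈ regRing k K a
      refine Subalgebra.mul_mem _ (Subalgebra.pow_mem _ ?_ _) (Subalgebra.mul_mem _ h6.1 h8.2)
      rw [hγ]
      simp only [mul_inv]
      exact Subalgebra.mul_mem _ h5.2 h2'.2
    · change (ν a)⁻¹ ∈ regRing k K a
      rw [hν]
      simp only [mul_inv, inv_pow, inv_inv]
      refine Subalgebra.mul_mem _ (Subalgebra.pow_mem _ ?_ _) (Subalgebra.mul_mem _ h6.2 h8.1)
      exact Subalgebra.mul_mem _ h5.1 h2'.1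
  set b : ℤ := lineDegree β with hb
  have hr0 : (0 : ℚ) < r := by exact_mod_cast hr
  have hrn : r ≤ n := by
    have h1 : A.rank = r := by
      apply le_antisymm
      · simpa using A.rank_le_height
      · have h2 := Matrix.rank_mul_le_left A R
        rw [hAR, Matrix.rank_one, Fintype.card_fin] at h2
        exact h2
    have := A.rank_le_width
    omega
  obtain ⟨y, hy, hy2⟩ := hnum r hr hrn
  have hslope := S.slope_multilinear (ι := Fin r ⊕ Fin r × Fin e) (h := H₀)
    (μ := y) ?_ ?_ Θ hΘ0 hν0 hfin ?_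
  rotate_left
  · exact light_isBundle' hH₀b
  · intro s hs A' hA' h' hh'
    have hh'' : IsQuotientBundle H₀ A' h' := light_quotient' hh'
    have hsr : s ≤ r := by
      have := A'.rank_le_width
      omega
    have h1 := hy s hs hsr (A' * A) (rank_mul_right_inv hAR hA') h' (quotient_trans hH₀ hh'')
    rw [light_degree]
    exact h1
  · intro a v hv
    have hv' : ∀ i, v i ∈ lattice a (H₀ a) := by
      intro i
      have := hv i
      rw [light_lattice] at this
      exact this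
    obtain ⟨c, hc1, hc2⟩ := theta_local (hg.1 a) (hγ0 a) (Q.Λ a) φ (claim2 a) hΘ halt
      (hH₀ a).1 (hH₁d a) (hl₀ a) (hH₁l a) v hv'
    exact ⟨c, hc1, hc2⟩
  -- the sum
  have hcard : Fintype.card (Fin r ⊕ Fin r × Fin e) = r + r * e := by simp
  rw [hcard] at hslope
  have hfg : {a | ordOver a (g a).det ≠ 0}.Finite :=
    quotient_support_finite hg (by rw [Matrix.mul_one]) (isQuotientBundle_self hg)
  have hf0 : {a | ordOver a (H₀ a).det ≠ 0}.Finite := quotient_support_finite hg hAR hH₀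
  have hfβ : {a | ordOver a (β a) ≠ 0}.Finite := by
    refine hβ.2.subset ?_
    intro a ha hcon
    exact ha (ordOver_unit (hβ.1 a) hcon.1 hcon.2)
  have hfν : {a | ordOver a (ν a) ≠ 0}.Finite := by
    refine hfin.subset ?_
    intro a ha hcon
    exact ha (ordOver_unit (hν0 a) hcon.1 hcon.2)
  set F := (((hfg.union hfβ).union hfν).union Q.cfin).toFinset with hF
  have hmem : ∀ a, a ∈ F ↔ (((ordOver a (g a).det ≠ 0 ∨ ordOver a (β a) ≠ 0) ∨
      ordOver a (ν a) ≠ 0) ∨ Q.c a ≠ 0) := by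
    intro a
    rw [hF, Set.Finite.mem_toFinset]
    rfl
  have e1 : degree g = -∑ a ∈ F, ordOver a (g a).det := by
    rw [degree, finsum_eq_sum_of_support_subset]
    intro a ha
    exact Finset.mem_coe.mpr ((hmem a).mpr (Or.inl (Or.inl (Or.inl ha))))
  have e2 : b = -∑ a ∈ F, ordOver a (β a) := by
    rw [hb, lineDegree]
    simp only [light_ordOver]
    rw [finsum_eq_sum_of_support_subset]
    intro a ha
    exact Finset.mem_coe.mpr ((hmem a).mpr (Or.inl (Or.inl (Or.inr ha))))
  have e3 : ∑ᶠ a, Curve.ordOver a (ν a) = ∑ a ∈ F, ordOver a (ν a) := by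
    simp only [light_ordOver]
    rw [finsum_eq_sum_of_support_subset]
    intro a ha
    exact Finset.mem_coe.mpr ((hmem a).mpr (Or.inl (Or.inr ha)))
  have e4 : ∑ᶠ a, Q.c a = ∑ a ∈ F, Q.c a := by
    rw [finsum_eq_sum_of_support_subset]
    intro a ha
    exact Finset.mem_coe.mpr ((hmem a).mpr (Or.inr ha))
  rw [e4] at hc
  have hc' : (∑ a ∈ F, (Q.c a : ℤ)) ≤ 2 := by exact_mod_cast hc
  have claim6 : ∀ a, -(r * (ordOver a (g a).det + ordOver a (β a)) + Q.c a) ≤
      ordOver a (ν a) := by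
    intro a
    have h1 : ordOver a (ν a) = -(r * (ordOver a (g a).det + ordOver a (β a))) +
        (ordOver a (H₀ a).det - ordOver a (H₁ a).det) := by
      rw [hν]
      simp only
      rw [ordOver_mul a (pow_ne_zero _ (inv_ne_zero (hγ0 a)))
        (mul_ne_zero (hH₀ a).1 (inv_ne_zero (hH₁d a))), ordOver_pow a (inv_ne_zero (hγ0 a)),
        ordOver_inv a (hγ0 a), ordOver_mul a (hH₀ a).1 (inv_ne_zero (hH₁d a)),
        ordOver_inv a (hH₁d a), hγ]
      simp only
      rw [ordOver_mul a (hg.1 a) (hβ.1 a)]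
      ring
    have h2 := claim5 a
    rw [h1]
    linarith
  have h1 : -(r * (∑ a ∈ F, ordOver a (g a).det + ∑ a ∈ F, ordOver a (β a)) +
      ∑ a ∈ F, (Q.c a : ℤ)) ≤ ∑ a ∈ F, ordOver a (ν a) := by
    rw [← Finset.sum_add_distrib, Finset.mul_sum, ← Finset.sum_add_distrib,
      ← Finset.sum_neg_distrib]
    exact Finset.sum_le_sum fun a _ => claim6 a
  have h2 : -∑ a ∈ F, ordOver a (ν a) ≤ -(r * (degree g + b)) + 2 := by
    rw [e1, e2]
    linarith
  have h3 : ((-∑ᶠ a, Curve.ordOver a (ν a) : ℤ) : ℚ) ≤ -(r * (degree g + b)) + 2 := by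
    rw [e3]
    exact_mod_cast h2
  push_cast at hslope h3
  have h4 := hslope.trans h3
  nlinarith

/-- Very ampleness from the numerical condition. -/
theorem veryAmple {g : Option k → Matrix (Fin n) (Fin n) K} (hg : Curve.IsBundle g)
    {β : Option k → K} (hβ : IsLineBundle β) {w : Option k → K}
    (hw : ∀ a, Curve.IsCanonicalGenerator a (w a)) {e : ℕ} (hnum : NumCond g β e) :
    IsVeryAmple g (e + 1) (fun a => w a * (g a).det * β a) := by
  have hg' : IsBundle g := light_isBundle hg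
  have hw' : ∀ a, IsCanonicalGenerator a (w a) := fun a => light_canonical_iff.mp (hw a)
  have hτ := isTwist_canonical hg' hw' hβ
  have hV : Vanish k K n g hg' e _ hτ := by
    intro Q hc u
    exact vanishing Q hg' hw' hβ hnum hc hτ u
  exact light_veryAmple (sec_nonvanishing hg' hτ hV) (sec_separates_points hg' hτ hV)
    (sec_separates_tangents hg' hτ hV)

end Pool.Agent.HF
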