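import Mathlib

/-!
# Polar forms of homogeneous polynomials
-/

set_option autoImplicit false

namespace Pool.Agent.HF

open MvPolynomial

section

variable {R : Type} [CommRing R] {n : ℕ}

/-- The derivative in the direction of a vector. -/
noncomputable def Dl : (Fin n → R) →ₗ[R] Module.End R (MvPolynomial (Fin n) R) :=
  ∑ i, (LinearMap.proj i).smulRight
    ((pderiv i : Derivation R (MvPolynomial (Fin n) R) _) :
      MvPolynomial (Fin n) R →ₗ[R] MvPolynomial (Fin n) R)

lemma Dl_apply (c : Fin n → R) (P : MvPolynomial (Fin n) R) :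
    Dl c P = ∑ i, c i • pderiv i P := by
  simp [Dl, LinearMap.sum_apply]

/-- The polar form of `P` (up to a factor `d !` if `P` is a form of degree `d`). -/
noncomputable def polar (d : ℕ) (P : MvPolynomial (Fin n) R) :
    MultilinearMap R (fun _ : Fin d => Fin n → R) R :=
  ((lcoeff (R := R) (0 : Fin n →₀ ℕ)).comp (LinearMap.applyₗ P)).compMultilinearMap
    ((MultilinearMap.mkPiAlgebraFin R d (Module.End R (MvPolynomial (Fin n) R))).compLinearMap
      fun _ => Dl)

lemma polar_apply (d : ℕ) (P : MvPolynomial (Fin n) R) (ξ : Fin d → Fin n → R) :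
    polar d P ξ = coeff 0 ((List.ofFn fun t => Dl (ξ t)).prod P) := by
  simp [polar]

lemma Dl_isHomogeneous {m : ℕ} (c : Fin n → R) {P : MvPolynomial (Fin n) R}
    (hP : P.IsHomogeneous (m + 1)) : (Dl c P).IsHomogeneous m := by
  rw [Dl_apply]
  refine IsHomogeneous.sum _ _ _ fun i _ => ?_
  rw [MvPolynomial.smul_eq_C_mul]
  have h1 := (isHomogeneous_C (Fin n) (c i)).mul (hP.pderiv (i := i))
  simpa using h1

lemma coeff_pow_Dl {m : ℕ} (c : Fin n → R) {P : MvPolynomial (Fin n) R}
    (hP : P.IsHomogeneous m) : coeff 0 ((Dl c ^ m) P) = (m.factorial : R) * eval c P := by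
  induction m generalizing P with
  | zero =>
    have h1 : P = C (coeff 0 P) := by
      have h2 := hP.totalDegree_le
      exact (totalDegree_eq_zero_iff_eq_C.mp (Nat.le_zero.mp h2))
    rw [h1]
    simp
  | succ m ih =>
    rw [pow_succ, Module.End.mul_apply, ih (Dl_isHomogeneous c hP), Dl_apply, map_sum]
    have h1 := congrArg (eval c) hP.sum_X_mul_pderiv
    rw [map_sum] at h1
    simp only [map_mul, eval_X, nsmul_eq_mul, map_natCast] at h1
    simp only [smul_eval]
    rw [h1, Nat.factorial_succ]
    push_cast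
    ring

/-- The value of the polar form. -/
lemma polar_const {m : ℕ} (c x : Fin n → R) {P : MvPolynomial (Fin n) R}
    (hP : P.IsHomogeneous (m + 1)) :
    polar (m + 1) P (Fin.snoc (fun _ => c) x) = (m.factorial : R) * eval c (Dl x P) := by
  rw [polar_apply, List.ofFn_succ', List.concat_eq_append, List.prod_append]
  simp only [Fin.snoc_castSucc, Fin.snoc_last, List.prod_singleton, Module.End.mul_apply]
  rw [← coeff_pow_Dl c (Dl_isHomogeneous x hP)]
  congr 2
  simp

end

section

variable {R S : Type} [CommRing R] [CommRing S] {n : ℕ}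

lemma map_Dl (f : R →+* S) (c : Fin n → R) (P : MvPolynomial (Fin n) R) :
    map f (Dl c P) = Dl (fun i => f (c i)) (map f P) := by
  rw [Dl_apply, Dl_apply, map_sum]
  refine Finset.sum_congr rfl fun i _ => ?_
  rw [MvPolynomial.smul_eq_C_mul, MvPolynomial.smul_eq_C_mul, map_mul, map_C, pderiv_map]

lemma map_polar (f : R →+* S) {d : ℕ} (P : MvPolynomial (Fin n) R) (ξ : Fin d → Fin n → R) :
    polar d (map f P) (fun t i => f (ξ t i)) = f (polar d P ξ) := by
  rw [polar_apply, polar_apply, ← coeff_map]
  congr 1
  have key : ∀ l : List (Fin n → R), ∀ P : MvPolynomial (Fin n) R,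
      map f ((l.map Dl).prod P) = ((l.map fun c => Dl fun i => f (c i)).prod (map f P)) := by
    intro l
    induction l with
    | nil => intro P; simp
    | cons c l ih =>
      intro P
      simp only [List.map_cons, List.prod_cons, Module.End.mul_apply]
      rw [map_Dl, ih]
  have h1 := key (List.ofFn ξ) P
  rw [List.map_ofFn, List.map_ofFn] at h1
  exact h1.symm

end

section

variable {K : Type} [Field K] {n : ℕ}

/-- The substitution attached to a matrix. -/
noncomputable def sub (g : Matrix (Fin n) (Fin n) K) :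
    MvPolynomial (Fin n) K →ₐ[K] MvPolynomial (Fin n) K :=
  aeval (fun j => ∑ i, C (g i j) * X i)

lemma Dl_sub (g : Matrix (Fin n) (Fin n) K) (c : Fin n → K) (P : MvPolynomial (Fin n) K) :
    Dl c (sub g P) = sub g (Dl (Matrix.transpose g |>.mulVec c) P) := by
  have hmul : ∀ (c : Fin n → K) (P Q : MvPolynomial (Fin n) K),
      Dl c (P * Q) = Dl c P * Q + P * Dl c Q := by
    intro c P Q
    simp only [Dl_apply, pderiv_mul, smul_add, Finset.sum_add_distrib, Finset.sum_mul,
      Finset.mul_sum, smul_mul_assoc, mul_smul_comm]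
  have hC : ∀ (c : Fin n → K) (a : K), Dl c (C a) = 0 := by
    intro c a
    simp [Dl_apply]
  have hX : ∀ (c : Fin n → K) (j : Fin n), Dl c (X j) = C (c j) := by
    intro c j
    rw [Dl_apply, Finset.sum_eq_single j]
    · rw [pderiv_X_self, MvPolynomial.smul_eq_C_mul, mul_one]
    · intro i _ hi
      rw [pderiv_X_of_ne hi.symm, smul_zero]
    · intro h
      exact absurd (Finset.mem_univ j) h
  induction P using MvPolynomial.induction_on with
  | C a =>
    have h1 : sub g (C a) = C a := by
      rw [sub, aeval_C]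
      rfl
    rw [h1, hC, hC, map_zero]
  | add P Q hP hQ => rw [map_add, map_add, map_add, map_add, hP, hQ]
  | mul_X P j hP =>
    rw [map_mul, hmul, hP, hmul, map_add, map_mul, map_mul, hX]
    congr 2
    have h1 : sub g (X j) = ∑ i, C (g i j) * X i := by
      rw [sub, aeval_X]
    have h2 : ∀ a : K, sub g (C a) = C a := by
      intro a
      rw [sub, aeval_C]
      rfl
    rw [h1, h2, map_sum]
    have h3 : ∀ i, Dl c (C (g i j) * X i) = C (g i j * c i) := by
      intro i
      rw [hmul, hC, hX, zero_mul, zero_add, ← C_mul]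
    simp only [h3]
    rw [← map_sum]
    congr 1

lemma coeff_zero_sub (g : Matrix (Fin n) (Fin n) K) (P : MvPolynomial (Fin n) K) :
    coeff 0 (sub g P) = coeff 0 P := by
  rw [← constantCoeff_eq]
  induction P using MvPolynomial.induction_on with
  | C a =>
    have h1 : sub g (C a) = C a := by
      rw [sub, aeval_C]
      rfl
    rw [h1]
  | add P Q hP hQ => rw [map_add, map_add, map_add, hP, hQ]
  | mul_X P j hP =>
    rw [map_mul, map_mul, map_mul, constantCoeff_X, mul_zero]
    have h1 : sub g (X j) = ∑ i, C (g i j) * X i := by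
      rw [sub, aeval_X]
    rw [h1, map_sum]
    simp

lemma polar_sub (g : Matrix (Fin n) (Fin n) K) {d : ℕ} (P : MvPolynomial (Fin n) K)
    (ξ : Fin d → Fin n → K) :
    polar d (sub g P) ξ = polar d P (fun t => (Matrix.transpose g).mulVec (ξ t)) := by
  rw [polar_apply, polar_apply]
  have key : ∀ l : List (Fin n → K), ∀ P : MvPolynomial (Fin n) K,
      (l.map Dl).prod (sub g P) =
        sub g ((l.map fun c => Dl ((Matrix.transpose g).mulVec c)).prod P) := by
    intro l
    induction l with
    | nil => intro P; simp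
    | cons c l ih =>
      intro P
      simp only [List.map_cons, List.prod_cons, Module.End.mul_apply]
      rw [ih, Dl_sub]
  have h1 := key (List.ofFn ξ) P
  rw [List.map_ofFn, List.map_ofFn] at h1
  have h2 := congrArg (coeff 0) h1
  rw [coeff_zero_sub] at h2
  exact h2

lemma polar_C_mul {d : ℕ} (t : K) (P : MvPolynomial (Fin n) K) (ξ : Fin d → Fin n → K) :
    polar d (C t * P) ξ = t * polar d P ξ := by
  rw [polar_apply, polar_apply, ← MvPolynomial.smul_eq_C_mul, map_smul, coeff_smul, smul_eq_mul]

end

end Pool.Agent.HF
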