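import Pool.Agent.HF.GEN
import Pool.Agent.HF.POL

/-!
# The key inequality

If a hypersurface of relative degree `d` in `ℙ(E)`, a section of `Sym^d E ⊗ M`, has no singular
rational point in the generic fibre, and all quotient bundles of `E` have slope at least `x`, with
equality for one of them, then `deg E + deg M ≥ (n - d) x`.
-/

set_option autoImplicit false
set_option linter.unusedSectionVars false

namespace Pool.Agent.HF

open Pool.Agent.Helper38.Scroll Matrix Module Pool.Agent.FJ MvPolynomial

section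

variable {R : Type} [CommRing R] {N : ℕ}

/-- The covector `u ↦ det (u, v_1, ..., v_N)`. -/
noncomputable def cross (R : Type) [CommRing R] (N : ℕ) :
    MultilinearMap R (fun _ : Fin N => Fin (N + 1) → R) (Fin (N + 1) → R) :=
  MultilinearMap.pi fun j =>
    (Matrix.detRowAlternating (R := R) (n := Fin (N + 1))).toMultilinearMap.curryLeft
      (Pi.single j 1)

lemma cross_apply (v : Fin N → Fin (N + 1) → R) (j : Fin (N + 1)) :
    cross R N v j = Matrix.det (Fin.cons (Pi.single j 1) v : Fin (N + 1) → Fin (N + 1) → R) :=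
  rfl

lemma cross_dot (v : Fin N → Fin (N + 1) → R) (u : Fin (N + 1) → R) :
    ∑ j, cross R N v j * u j = Matrix.det (Fin.cons u v : Fin (N + 1) → Fin (N + 1) → R) := by
  have h1 : u = ∑ j, u j • (Pi.single j 1 : Fin (N + 1) → R) := by
    funext i
    simp [Finset.sum_apply, Pi.single_apply]
  have h2 : Matrix.det (Fin.cons u v : Fin (N + 1) → Fin (N + 1) → R) =
      (Matrix.detRowAlternating (R := R) (n := Fin (N + 1))).toMultilinearMap.curryLeft u v := rfl
  rw [h2]
  conv_rhs => rw [h1]
  rw [map_sum, _root_.sum_apply]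
  refine Finset.sum_congr rfl fun j _ => ?_
  rw [map_smul, _root_.smul_apply, smul_eq_mul, mul_comm]
  rfl

lemma transpose_mulVec_cross (g : Matrix (Fin (N + 1)) (Fin (N + 1)) R)
    (c : Fin N → Fin (N + 1) → R) :
    gᵀ *ᵥ cross R N (fun l => g *ᵥ c l) = g.det • cross R N c := by
  funext j
  have h1 : (gᵀ *ᵥ cross R N (fun l => g *ᵥ c l)) j =
      ∑ i, cross R N (fun l => g *ᵥ c l) i * g i j := by
    rw [mulVec, dotProduct]
    refine Finset.sum_congr rfl fun i _ => ?_
    rw [transpose_apply, mul_comm]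
  rw [h1, cross_dot, Pi.smul_apply, smul_eq_mul, cross_apply]
  have h2 : (Fin.cons (fun i => g i j) fun l => g *ᵥ c l : Fin (N + 1) → Fin (N + 1) → R) =
      (Matrix.of (Fin.cons (Pi.single j 1) c : Fin (N + 1) → Fin (N + 1) → R)) * gᵀ := by
    funext i
    refine Fin.cases ?_ (fun l => ?_) i
    · funext i'
      simp [Matrix.mul_apply, Pi.single_apply]
    · funext i'
      simp [Matrix.mul_apply, mulVec, dotProduct, mul_comm]
  rw [h2, Matrix.det_mul, Matrix.det_transpose, mul_comm]
  rfl

lemma cross_single (i : Fin (N + 1)) :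
    ∃ c : R, IsUnit c ∧
      cross R N (fun l => Pi.single (i.succAbove l) 1) = c • (Pi.single i 1 : Fin (N + 1) → R) := by
  set v : Fin N → Fin (N + 1) → R := fun l => Pi.single (i.succAbove l) 1 with hv
  refine ⟨cross R N v i, ?_, ?_⟩
  · rw [cross_apply]
    have h1 : (Fin.cons (Pi.single i 1) v : Fin (N + 1) → Fin (N + 1) → R) =
        (1 : Matrix (Fin (N + 1)) (Fin (N + 1)) R).submatrix
          (Fin.cons i i.succAbove : Fin (N + 1) → Fin (N + 1)) id := by
      funext a b
      refine Fin.cases ?_ (fun l => ?_) a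
      · simp [Matrix.one_apply, Pi.single_apply, eq_comm]
      · simp [Matrix.one_apply, Pi.single_apply, hv, eq_comm]
    have hbij : Function.Bijective (Fin.cons i i.succAbove : Fin (N + 1) → Fin (N + 1)) := by
      rw [Fintype.bijective_iff_injective_and_card]
      refine ⟨?_, rfl⟩
      rw [Fin.cons_injective_iff]
      exact ⟨fun ⟨l, hl⟩ => Fin.succAbove_ne i l hl, Fin.succAbove_right_injective⟩
    rw [h1]
    have h2 : (1 : Matrix (Fin (N + 1)) (Fin (N + 1)) R).submatrix
          (Fin.cons i i.succAbove : Fin (N + 1) → Fin (N + 1)) id =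
        (1 : Matrix (Fin (N + 1)) (Fin (N + 1)) R).submatrix (Equiv.ofBijective _ hbij) id := rfl
    rw [h2, Matrix.det_permute, Matrix.det_one, mul_one]
    exact (Units.isUnit _).map (Int.castRingHom R)
  · funext j
    rw [Pi.smul_apply, smul_eq_mul]
    by_cases hj : j = i
    · subst hj
      rw [Pi.single_eq_same, mul_one]
    · rw [Pi.single_eq_of_ne hj, mul_zero, cross_apply]
      obtain ⟨l, hl⟩ := Fin.exists_succAbove_eq hj
      refine Matrix.det_zero_of_row_eq (i := 0) (j := l.succ) (Fin.succ_ne_zero l).symm ?_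
      rw [Fin.cons_zero, Fin.cons_succ, hv]
      simp only
      rw [hl]

end

section

variable {K : Type} [Field K]

lemma exists_right_inv {r n : ℕ} {A : Matrix (Fin r) (Fin n) K} (hA : A.rank = r) :
    ∃ R : Matrix (Fin n) (Fin r) K, A * R = 1 := by
  have h1 : Function.Surjective A.mulVecLin := by
    rw [← LinearMap.range_eq_top]
    apply Submodule.eq_top_of_finrank_eq
    rw [finrank_fin_fun]
    exact hA
  obtain ⟨s, hs⟩ := A.mulVecLin.exists_rightInverse_of_surjective (LinearMap.range_eq_top.mpr h1)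
  refine ⟨LinearMap.toMatrix' s, ?_⟩
  have h2 : LinearMap.toMatrix' A.mulVecLin = A := LinearMap.toMatrix'_toLin' A
  rw [← h2, ← LinearMap.toMatrix'_comp, hs, LinearMap.toMatrix'_id]

variable {N q D : ℕ}

/-- The covectors on `K ^ (N + 1)` in the slots. -/
noncomputable def slot (A : Matrix (Fin (q + 1)) (Fin (N + 1)) K) :
    ∀ t : Option (Fin D), MultilinearMap K
      (fun _ : Fin (t.elim N fun _ => q) => Fin (N + 1) → K) (Fin (N + 1) → K)
  | none => cross K N
  | some _ => ((Matrix.mulVecLin Aᵀ).compMultilinearMap (cross K q)).compLinearMap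
      fun _ => A.mulVecLin

/-- The multilinear form. -/
noncomputable def bigTheta (P : MvPolynomial (Fin (N + 1)) K)
    (A : Matrix (Fin (q + 1)) (Fin (N + 1)) K) :
    MultilinearMap K (fun _ : Σ t : Option (Fin D), Fin (t.elim N fun _ => q) =>
      Fin (N + 1) → K) K :=
  ((polar (D + 1) P).domDomCongr finSuccEquivLast).compMultilinearMap (slot A)

/-- The covector in a slot. -/
noncomputable def slotVal (A : Matrix (Fin (q + 1)) (Fin (N + 1)) K)
    (x : (Σ t : Option (Fin D), Fin (t.elim N fun _ => q)) → Fin (N + 1) → K)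
    (t : Option (Fin D)) : Fin (N + 1) → K :=
  slot A t fun l => x ⟨t, l⟩

lemma bigTheta_apply (P : MvPolynomial (Fin (N + 1)) K)
    (A : Matrix (Fin (q + 1)) (Fin (N + 1)) K)
    (x : (Σ t : Option (Fin D), Fin (t.elim N fun _ => q)) → Fin (N + 1) → K) :
    bigTheta P A x = polar (D + 1) P (fun t => slotVal A x (finSuccEquivLast t)) := rfl

lemma slotVal_none (A : Matrix (Fin (q + 1)) (Fin (N + 1)) K)
    (x : (Σ t : Option (Fin D), Fin (t.elim N fun _ => q)) → Fin (N + 1) → K) :
    slotVal A x none = cross K N (fun l => x ⟨none, l⟩) := rfl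

lemma slotVal_some (A : Matrix (Fin (q + 1)) (Fin (N + 1)) K)
    (x : (Σ t : Option (Fin D), Fin (t.elim N fun _ => q)) → Fin (N + 1) → K) (s : Fin D) :
    slotVal A x (some s) = Aᵀ *ᵥ cross K q (fun l => A *ᵥ x ⟨some s, l⟩) := rfl

lemma bigTheta_ne_zero [CharZero K] {P : MvPolynomial (Fin (N + 1)) K}
    (hP : P.IsHomogeneous (D + 1))
    (hs : ∀ ξ : Fin (N + 1) → K, ξ ≠ 0 → ∃ i, eval ξ (pderiv i P) ≠ 0)
    {A : Matrix (Fin (q + 1)) (Fin (N + 1)) K} {R : Matrix (Fin (N + 1)) (Fin (q + 1)) K}
    (hAR : A * R = 1) : bigTheta (D := D) P A ≠ 0 := by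
  obtain ⟨c', hc', hc'2⟩ := cross_single (R := K) (0 : Fin (q + 1))
  set ξ : Fin (N + 1) → K := Aᵀ *ᵥ (c' • (Pi.single 0 1 : Fin (q + 1) → K)) with hξ
  have hξ0 : ξ ≠ 0 := by
    intro h
    have h1 : Rᵀ *ᵥ ξ = c' • (Pi.single 0 1 : Fin (q + 1) → K) := by
      rw [hξ, mulVec_mulVec, ← Matrix.transpose_mul, hAR, transpose_one, one_mulVec]
    rw [h, mulVec_zero] at h1
    have h2 := congrFun h1 0
    simp only [Pi.zero_apply, Pi.smul_apply, Pi.single_eq_same, smul_eq_mul, mul_one] at h2
    exact hc'.ne_zero h2.symm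
  obtain ⟨i, hi⟩ := hs ξ hξ0
  obtain ⟨c, hc, hc2⟩ := cross_single (R := K) i
  let x : (Σ t : Option (Fin D), Fin (t.elim N fun _ => q)) → Fin (N + 1) → K := fun p =>
    match p with
    | ⟨none, l⟩ => Pi.single (i.succAbove l) 1
    | ⟨some _, l⟩ => R *ᵥ Pi.single ((0 : Fin (q + 1)).succAbove l) 1
  have h1 : slotVal A x none = c • (Pi.single i 1 : Fin (N + 1) → K) := by
    rw [slotVal_none]
    exact hc2
  have h2 : ∀ s, slotVal A x (some s) = ξ := by
    intro s
    rw [slotVal_some, hξ, ← hc'2]
    congr 2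
    funext l
    change A *ᵥ (R *ᵥ _) = _
    rw [mulVec_mulVec, hAR, one_mulVec]
  have h3 : bigTheta P A x = (D.factorial : K) * (c * eval ξ (pderiv i P)) := by
    rw [bigTheta_apply]
    have h4 : (fun t => slotVal A x (finSuccEquivLast t)) =
        (Fin.snoc (fun _ => ξ) (c • (Pi.single i 1 : Fin (N + 1) → K)) :
          Fin (D + 1) → Fin (N + 1) → K) := by
      funext t
      refine Fin.lastCases ?_ (fun s => ?_) t
      · rw [finSuccEquivLast_last, Fin.snoc_last, h1]
      · rw [finSuccEquivLast_castSucc, Fin.snoc_castSucc, h2]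
    rw [h4, polar_const ξ _ hP, map_smul]
    congr 1
    rw [LinearMap.smul_apply, smul_eval]
    congr 1
    rw [Dl_apply, Finset.sum_eq_single i]
    · rw [Pi.single_eq_same, one_smul]
    · intro j _ hj
      rw [Pi.single_eq_of_ne hj, zero_smul]
    · intro h
      exact absurd (Finset.mem_univ i) h
  intro h
  have h5 : bigTheta P A x = 0 := by rw [h]; rfl
  rw [h3] at h5
  have h6 : (D.factorial : K) ≠ 0 := by
    exact_mod_cast Nat.factorial_ne_zero D
  exact (mul_ne_zero h6 (mul_ne_zero hc.ne_zero hi)) h5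

end

section

variable {k K : Type} [Field k] [Field K] [Algebra (RatFunc k) K] [Algebra k K]
  [IsScalarTower k (RatFunc k) K]

lemma cross_regular {a : Option k} {N : ℕ} {c : Fin N → Fin (N + 1) → K}
    (hc : ∀ l i, Curve.Regular a (c l i)) (j : Fin (N + 1)) :
    Curve.Regular a (cross K N c j) := by
  have h1 : ∀ r i, (Fin.cons (Pi.single j 1) c : Fin (N + 1) → Fin (N + 1) → K) r i ∈
      Curve.regularRing k K a := by
    intro r i
    refine Fin.cases ?_ (fun l => ?_) r
    · rw [Fin.cons_zero]
      by_cases h : i = j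
      · subst h
        rw [Pi.single_eq_same]
        exact one_mem _
      · rw [Pi.single_eq_of_ne h]
        exact zero_mem _
    · rw [Fin.cons_succ]
      exact hc l i
  rw [cross_apply]
  change Matrix.det (Matrix.of (Fin.cons (Pi.single j 1) c : Fin (N + 1) → Fin (N + 1) → K)) ∈
    Curve.regularRing k K a
  rw [Matrix.det_apply]
  refine sum_mem fun σ _ => ?_
  rw [Units.smul_def, zsmul_eq_mul]
  exact mul_mem (intCast_mem _ _) (prod_mem fun i _ => h1 _ _)

lemma polar_regular {a : Option k} {n d : ℕ} (P : MvPolynomial (Fin n) (Curve.regularRing k K a))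
    {ρ : Fin d → Fin n → K} (hρ : ∀ t i, Curve.Regular a (ρ t i)) :
    Curve.Regular a (polar d (map (algebraMap (Curve.regularRing k K a) K) P) ρ) := by
  have h1 := map_polar (algebraMap (Curve.regularRing k K a) K) P
    (fun t i => (⟨ρ t i, hρ t i⟩ : Curve.regularRing k K a))
  have h2 : (fun t i => algebraMap (Curve.regularRing k K a) K
      (⟨ρ t i, hρ t i⟩ : Curve.regularRing k K a)) = ρ := rfl
  rw [h2] at h1
  rw [h1]
  exact (polar d P fun t i => (⟨ρ t i, hρ t i⟩ : Curve.regularRing k K a)).2

lemma mulVec_regular {a : Option k} {m n : ℕ} {M : Matrix (Fin m) (Fin n) K} {v : Fin n → K}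
    (hM : ∀ i j, Curve.Regular a (M i j)) (hv : ∀ i, Curve.Regular a (v i)) (i : Fin m) :
    Curve.Regular a ((M *ᵥ v) i) := by
  change _ ∈ Curve.regularRing k K a
  rw [mulVec, dotProduct]
  exact sum_mem fun j _ => mul_mem (hM i j) (hv j)

/-- The local values of the multilinear form. -/
lemma bigTheta_local {N q D : ℕ} {a : Option k} {g : Matrix (Fin (N + 1)) (Fin (N + 1)) K}
    {h : Matrix (Fin (q + 1)) (Fin (q + 1)) K} {A : Matrix (Fin (q + 1)) (Fin (N + 1)) K}
    (hgh : Curve.lattice a h = (fun v => A *ᵥ v) '' Curve.lattice a g) {τ : K}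
    (P : MvPolynomial (Fin (N + 1)) (Curve.regularRing k K a))
    (x : (Σ t : Option (Fin D), Fin (t.elim N fun _ => q)) → Fin (N + 1) → K)
    (hx : ∀ p, x p ∈ Curve.lattice a g) :
    ∃ c, Curve.Regular a c ∧
      bigTheta (C τ * sub g (map (algebraMap (Curve.regularRing k K a) K) P)) A x =
        (τ * (g.det * h.det ^ D)) * c := by
  -- the slots
  have key : ∀ t : Option (Fin D), ∃ ρ : Fin (N + 1) → K, (∀ i, Curve.Regular a (ρ i)) ∧
      gᵀ *ᵥ slotVal A x t = (t.elim g.det fun _ => h.det) • ρ := by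
    intro t
    rcases t with _ | s
    · choose c hc hc2 using fun l : Fin N => hx ⟨none, l⟩
      refine ⟨cross K N c, cross_regular hc, ?_⟩
      have h1 : slotVal A x none = cross K N (fun l => g *ᵥ c l) := by
        rw [slotVal_none]
        congr 1
        funext l
        exact (hc2 l).symm
      rw [h1, transpose_mulVec_cross]
      rfl
    · have h2 : ∀ l : Fin q, A *ᵥ x ⟨some s, l⟩ ∈ Curve.lattice a h := by
        intro l
        rw [hgh]
        exact ⟨_, hx ⟨some s, l⟩, rfl⟩
      choose c hc hc2 using h2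
      have h3 : ∀ j : Fin (N + 1), A *ᵥ (g *ᵥ Pi.single j 1) ∈ Curve.lattice a h := by
        intro j
        rw [hgh]
        refine ⟨g *ᵥ Pi.single j 1, ⟨Pi.single j 1, ?_, rfl⟩, rfl⟩
        intro i
        by_cases hi : i = j
        · subst hi
          rw [Pi.single_eq_same]
          exact one_mem (Curve.regularRing k K a)
        · rw [Pi.single_eq_of_ne hi]
          exact zero_mem (Curve.regularRing k K a)
      choose b hb hb2 using h3
      have h4 : A * g = h * Matrix.of (fun i j => b j i) := by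
        have h5 : ∀ j, (A * g) *ᵥ Pi.single j 1 = (h * Matrix.of (fun i j => b j i)) *ᵥ
            (Pi.single j 1 : Fin (N + 1) → K) := by
          intro j
          rw [← mulVec_mulVec, ← mulVec_mulVec, ← hb2]
          congr 1
          funext i
          simp
        exact Matrix.ext_of_mulVec_single h5
      refine ⟨(Matrix.of (fun i j => b j i))ᵀ *ᵥ cross K q c,
        mulVec_regular (fun i j => hb i j) (cross_regular hc), ?_⟩
      have h1 : slotVal A x (some s) = Aᵀ *ᵥ cross K q (fun l => h *ᵥ c l) := by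
        rw [slotVal_some]
        congr 2
        funext l
        exact (hc2 l).symm
      rw [h1, mulVec_mulVec, ← Matrix.transpose_mul, h4, Matrix.transpose_mul, ← mulVec_mulVec,
        transpose_mulVec_cross, mulVec_smul]
      rfl
  choose ρ hρ hρ2 using key
  refine ⟨polar (D + 1) (map (algebraMap (Curve.regularRing k K a) K) P)
    (fun t => ρ (finSuccEquivLast t)), polar_regular P fun t i => hρ _ i, ?_⟩
  rw [bigTheta_apply, polar_C_mul, polar_sub]
  have h6 : (fun t => gᵀ *ᵥ slotVal A x (finSuccEquivLast t)) =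
      fun t : Fin (D + 1) => ((finSuccEquivLast t).elim g.det fun _ => h.det) •
        ρ (finSuccEquivLast t) := by
    funext t
    exact hρ2 _
  rw [h6, MultilinearMap.map_smul_univ,
    Equiv.prod_comp finSuccEquivLast (fun t : Option (Fin D) => t.elim g.det fun _ => h.det),
    Fintype.prod_option]
  simp only [Option.elim_none, Option.elim_some, Finset.prod_const, Finset.card_univ,
    Fintype.card_fin, smul_eq_mul]
  ring

end

end Pool.Agent.HF
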