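import Pool.Agent.FJ.Statement

/-!
# Hypersurfaces in projective bundles over curves: definitions

`C` is the smooth projective curve with function field `K`, `E` a vector bundle of rank `n` on `C`
with frames `g` (see `Pool/Agent/Helper38/Scroll/Statement.lean`), `M` a line bundle with local
generators `μ` (see `Pool/Agent/FJ/Statement.lean`). A section `F` of `Sym^d E ⊗ M`, i.e. of
`O(d) ⊗ π^* M` on `ℙ(E)`, defines the hypersurface `X = {F = 0}` of `ℙ(E)`, with generic fibre
`{F.form = 0}` in the projective space `ℙ^(n-1)` over `K`.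
-/

namespace Pool.Agent.HF

open Pool.Agent.Helper38.Scroll Pool.Agent.FJ MvPolynomial Matrix

variable {k K : Type} [Field k] [Field K] [Algebra (RatFunc k) K] [Algebra k K]
  [IsScalarTower k (RatFunc k) K]

/-- The generic fibre of the hypersurface `F = 0` has no singular `K`-rational point. (This holds if
the generic fibre is smooth, i.e. if almost all fibres of the hypersurface over the curve are
smooth.) -/
def NoSingularRationalPoint {n d : ℕ} {g : Option k → Matrix (Fin n) (Fin n) K}
    {μ : Option k → K} (F : GlobalSection g d μ) : Prop :=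
  ∀ ξ : Fin n → K, ξ ≠ 0 → eval ξ F.form = 0 → ∃ i, eval ξ (pderiv i F.form) ≠ 0

/-- Positivity of the restriction of `A = O(m) ⊗ π^* B` to the hypersurface `X = {F = 0}`: `m > 0`,
and for every quotient bundle `Q` of `E` of rank `s > 0`, `m deg Q + s deg B > 0` if `ℙ(Q)` is
contained in `X`, and `m (d deg Q + deg M) + (s - 1) d deg B > 0` if `ℙ(Q)` is not contained in
`X` and `s ≥ 2`. This holds if the restriction of `A` to `X` is ample: `m ^ (s - 1)` times the first
number is the top self-intersection number of `A` on `ℙ(Q)`, and `m ^ (s - 2)` times the second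
number is the one on `X ∩ ℙ(Q)`. -/
def IsPositiveOn {n d : ℕ} {g : Option k → Matrix (Fin n) (Fin n) K} {μ : Option k → K}
    (F : GlobalSection g d μ) (m : ℕ) (β : Option k → K) : Prop :=
  0 < m ∧ ∀ s : ℕ, 0 < s → ∀ A : Matrix (Fin s) (Fin n) K, A.rank = s →
    ∀ h : Option k → Matrix (Fin s) (Fin s) K, Curve.IsQuotientBundle g A h →
      ((∀ η : Fin s → K, eval (Aᵀ *ᵥ η) F.form = 0) →
        0 < m * Curve.degree h + s * lineDegree β) ∧
      ((∃ η : Fin s → K, eval (Aᵀ *ᵥ η) F.form ≠ 0) → 2 ≤ s →
        0 < m * (d * Curve.degree h + lineDegree μ) + (s - 1) * (d * lineDegree β))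

end Pool.Agent.HF
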