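import Pool.Agent.HF.KEY
import Pool.Agent.HF.Statement

/-!
# Hypersurfaces in projective bundles over curves: the main theorem
-/

set_option autoImplicit false
set_option linter.unusedSectionVars false

namespace Pool.Agent.HF

open Pool.Agent.Helper38.Scroll Matrix Module Pool.Agent.FJ MvPolynomial

variable {k K : Type} [Field k] [Field K] [Algebra (RatFunc k) K] [Algebra k K]
  [IsScalarTower k (RatFunc k) K] [IsAlgClosed k] [CharZero k] [FiniteDimensional (RatFunc k) K]

lemma form_isHomogeneous {n d : ℕ} {g : Option k → Matrix (Fin n) (Fin n) K} {τ : Option k → K}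
    (F : GlobalSection g d τ) : F.form.IsHomogeneous d := by
  have h1 : F.form = C (τ none) * subst (g none)
      (map (algebraMap (Curve.regularRing k K none) K) (F.loc none)) := F.eq none
  rw [h1]
  have h2 := (isHomogeneous_C (Fin n) (τ none)).mul
    (subst_isHomogeneous (g none) ((F.homogeneous none).map
      (algebraMap (Curve.regularRing k K none) K)))
  rwa [zero_add] at h2

lemma support_of_bundle {n : ℕ} {g : Option k → Matrix (Fin n) (Fin n) K} (hg : IsBundle g) :
    (Function.support fun a => ordOver a (g a).det).Finite := by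
  refine hg.2.subset ?_
  intro a ha
  rw [Function.mem_support] at ha
  rw [Set.mem_ofPred_eq]
  intro h
  have h1 := mem_regRing_inv_of_lattice_eq (hg.1 a) h
  exact ha (ordOver_unit (hg.1 a) h1.1 h1.2)

/-- **The key inequality.** -/
theorem key_ineq {N q D : ℕ} {g : Option k → Matrix (Fin (N + 1)) (Fin (N + 1)) K}
    (hg : Curve.IsBundle g) {τ : Option k → K} (hτ : IsLineBundle τ)
    (F : GlobalSection g (D + 1) τ)
    (hF : ∀ ξ : Fin (N + 1) → K, ξ ≠ 0 → ∃ i, eval ξ (pderiv i F.form) ≠ 0)
    {x : ℚ} (hx : ∀ s : ℕ, 0 < s → ∀ A : Matrix (Fin s) (Fin (N + 1)) K, A.rank = s →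
      ∀ h : Option k → Matrix (Fin s) (Fin s) K, Curve.IsQuotientBundle g A h →
        x * s ≤ Curve.degree h)
    {A : Matrix (Fin (q + 1)) (Fin (N + 1)) K} (hA : A.rank = q + 1)
    {h : Option k → Matrix (Fin (q + 1)) (Fin (q + 1)) K} (hh : Curve.IsQuotientBundle g A h)
    (hxq : (Curve.degree h : ℚ) = x * (q + 1)) :
    ((N : ℚ) - D) * x ≤ Curve.degree g + lineDegree τ := by
  have : CharZero K := charZero_of_injective_algebraMap (algebraMap k K).injective
  obtain ⟨R, hAR⟩ := exists_right_inv hA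
  have hg' : IsBundle g := light_isBundle hg
  have hh' : IsQuotientBundle g A h := light_quotient' hh
  have hhb : IsBundle h := quotient_isBundle hg' hAR hh'
  set ν : Option k → K := fun a => τ a * ((g a).det * (h a).det ^ D) with hν
  have hν0 : ∀ a, ν a ≠ 0 := fun a =>
    mul_ne_zero (hτ.1 a) (mul_ne_zero (hg'.1 a) (pow_ne_zero _ (hhb.1 a)))
  have hfin : {a | ¬ (Curve.Regular a (ν a) ∧ Curve.Regular a (ν a)⁻¹)}.Finite := by
    refine ((hτ.2.union hg'.2).union hhb.2).subset ?_
    intro a ha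
    by_contra hcon
    simp only [Set.mem_union, Set.mem_ofPred_eq, not_or, not_not] at hcon
    obtain ⟨⟨h1, h2⟩, h3⟩ := hcon
    apply ha
    have h5 := mem_regRing_inv_of_lattice_eq (hg'.1 a) h2
    have h6 := mem_regRing_inv_of_lattice_eq (hhb.1 a) h3
    have h1' : τ a ∈ regRing k K a ∧ (τ a)⁻¹ ∈ regRing k K a := h1
    constructor
    · change ν a ∈ regRing k K a
      exact Subalgebra.mul_mem _ h1'.1 (Subalgebra.mul_mem _ h5.1 (Subalgebra.pow_mem _ h6.1 _))
    · change (ν a)⁻¹ ∈ regRing k K a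
      rw [hν]
      simp only [mul_inv, ← inv_pow]
      exact Subalgebra.mul_mem _ h1'.2 (Subalgebra.mul_mem _ h5.2 (Subalgebra.pow_mem _ h6.2 _))
  have hslope := S.slope_multilinear (h := g) (μ := x) hg hx (bigTheta (D := D) F.form A)
    (bigTheta_ne_zero (form_isHomogeneous F) hF hAR) hν0 hfin ?_
  rotate_left
  · intro a v hv
    have h1 := bigTheta_local (hh a).2 (τ := τ a) (F.loc a) v hv
    have h2 : F.form = C (τ a) * sub (g a)
      (map (algebraMap (Curve.regularRing k K a) K) (F.loc a)) := F.eq a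
    rw [h2]
    exact h1
  have hcard : Fintype.card (Σ t : Option (Fin D), Fin (t.elim N fun _ => q)) = N + D * q := by
    have e1 : Fintype.card (Fin ((none : Option (Fin D)).elim N fun _ => q)) = N :=
      Fintype.card_fin _
    have e2 : ∀ s : Fin D, Fintype.card (Fin ((some s : Option (Fin D)).elim N fun _ => q)) = q :=
      fun s => Fintype.card_fin _
    rw [Fintype.card_sigma, Fintype.sum_option, e1, Finset.sum_congr rfl (fun s _ => e2 s),
      Finset.sum_const, Finset.card_univ, Fintype.card_fin, smul_eq_mul]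
  rw [hcard] at hslope
  have hsum : ∑ᶠ a, Curve.ordOver a (ν a) = ∑ᶠ a, Curve.ordOver a (τ a) +
      (∑ᶠ a, Curve.ordOver a (g a).det + D * ∑ᶠ a, Curve.ordOver a (h a).det) := by
    simp only [light_ordOver]
    have h1 : ∀ a, ordOver a (ν a) = ordOver a (τ a) +
        (ordOver a (g a).det + D * ordOver a (h a).det) := by
      intro a
      rw [hν]
      simp only
      rw [ordOver_mul a (hτ.1 a) (mul_ne_zero (hg'.1 a) (pow_ne_zero _ (hhb.1 a))),
        ordOver_mul a (hg'.1 a) (pow_ne_zero _ (hhb.1 a)), ordOver_pow a (hhb.1 a)]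
    have e1 := lgt_support hτ
    have e2 := support_of_bundle hg'
    have e3 := support_of_bundle hhb
    have e4 : (Function.support fun a => (D : ℤ) * ordOver a (h a).det).Finite :=
      e3.subset fun a ha => by
        rw [Function.mem_support] at ha ⊢
        exact right_ne_zero_of_mul ha
    rw [finsum_congr h1, finsum_add_distrib e1 ((e2.union e4).subset
      (Function.support_add _ _)), finsum_add_distrib e2 e4, mul_finsum]
  have h3 : -∑ᶠ a, Curve.ordOver a (ν a) =
      lineDegree τ + (Curve.degree g + D * Curve.degree h) := by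
    rw [hsum, lineDegree, Curve.degree, Curve.degree]
    ring
  rw [h3] at hslope
  push_cast at hslope
  rw [hxq] at hslope
  linarith

/-- A quotient bundle of least slope. -/
theorem exists_min_slope {n : ℕ} (hn : 0 < n) {g : Option k → Matrix (Fin n) (Fin n) K}
    {m : ℕ} (hm : 0 < m) {b : ℤ}
    (hpos : ∀ s : ℕ, 0 < s → ∀ A : Matrix (Fin s) (Fin n) K, A.rank = s →
      ∀ h : Option k → Matrix (Fin s) (Fin s) K, IsQuotientBundle g A h →
        0 < m * degree h + s * b) (hg : IsBundle g) :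
    ∃ (x : ℚ) (q : ℕ) (A : Matrix (Fin (q + 1)) (Fin n) K)
      (h : Option k → Matrix (Fin (q + 1)) (Fin (q + 1)) K),
      A.rank = q + 1 ∧ IsQuotientBundle g A h ∧ (degree h : ℚ) = x * (q + 1) ∧
      ∀ s : ℕ, 0 < s → ∀ A : Matrix (Fin s) (Fin n) K, A.rank = s →
        ∀ h : Option k → Matrix (Fin s) (Fin s) K, IsQuotientBundle g A h → x * s ≤ degree h := by
  classical
  let P : ℤ → Prop := fun z => ∃ (q : ℕ) (A : Matrix (Fin (q + 1)) (Fin n) K)
      (h : Option k → Matrix (Fin (q + 1)) (Fin (q + 1)) K),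
      A.rank = q + 1 ∧ IsQuotientBundle g A h ∧ z * (q + 1) = n.factorial * degree h
  have hfac : (0 : ℤ) < n.factorial := by exact_mod_cast n.factorial_pos
  have hbdd : ∃ c : ℤ, ∀ z, P z → c ≤ z := by
    refine ⟨-(n.factorial * |b|), ?_⟩
    rintro z ⟨q, A, h, hA, hh, hz⟩
    by_contra hcon
    push Not at hcon
    have h1 := hpos (q + 1) (Nat.succ_pos q) A hA h hh
    push_cast at h1
    have h2 : (0 : ℤ) < n.factorial * (m * degree h + (q + 1) * b) := mul_pos hfac h1
    have h3 : (n.factorial : ℤ) * (m * degree h + (q + 1) * b) =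
        (q + 1) * (m * z + n.factorial * b) := by
      linear_combination (m : ℤ) * (-hz)
    rw [h3] at h2
    have hq : (0 : ℤ) < q + 1 := by positivity
    have h4 : 0 < m * z + n.factorial * b := (mul_pos_iff_of_pos_left hq).mp h2
    have h5 : (n.factorial : ℤ) * b ≤ n.factorial * |b| :=
      mul_le_mul_of_nonneg_left (le_abs_self b) hfac.le
    have h6 : (0 : ℤ) ≤ n.factorial * |b| := mul_nonneg hfac.le (abs_nonneg b)
    have hm1 : (1 : ℤ) ≤ m := by exact_mod_cast hm
    nlinarith
  have hinh : ∃ z, P z := by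
    obtain ⟨n', rfl⟩ := Nat.exists_eq_succ_of_ne_zero hn.ne'
    refine ⟨n'.factorial * degree g, n', 1, g, by rw [Matrix.rank_one, Fintype.card_fin],
      isQuotientBundle_self hg, ?_⟩
    have h1 : (n'.succ.factorial : ℤ) = (n' + 1) * n'.factorial := by
      rw [Nat.succ_eq_add_one, Nat.factorial_succ]
      push_cast
      ring
    rw [h1]
    ring
  obtain ⟨z0, ⟨q, A, h, hA, hh, hz⟩, hmin⟩ := Int.exists_least_of_bdd hbdd hinh
  have hfacQ : (0 : ℚ) < n.factorial := by exact_mod_cast n.factorial_pos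
  refine ⟨z0 / n.factorial, q, A, h, hA, hh, ?_, ?_⟩
  · rw [div_mul_eq_mul_div, eq_div_iff hfacQ.ne']
    have : (z0 : ℚ) * (q + 1) = n.factorial * degree h := by exact_mod_cast hz
    linarith
  · intro s hs A' hA' h' hh'
    obtain ⟨s', rfl⟩ := Nat.exists_eq_succ_of_ne_zero hs.ne'
    have hsn : s'.succ ≤ n := by
      have := A'.rank_le_width
      omega
    obtain ⟨c, hc⟩ := Nat.dvd_factorial hs hsn
    have h1 : P (c * degree h') := by
      refine ⟨s', A', h', hA', hh', ?_⟩
      have h2 : (n.factorial : ℤ) = (s' + 1) * c := by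
        rw [hc, Nat.succ_eq_add_one]
        push_cast
        ring
      rw [h2]
      ring
    have h2 : (z0 : ℚ) ≤ c * degree h' := by exact_mod_cast hmin _ h1
    have h4 : (n.factorial : ℚ) = (s' + 1) * c := by
      rw [hc, Nat.succ_eq_add_one]
      push_cast
      ring
    rw [div_mul_eq_mul_div, div_le_iff₀ hfacQ, h4]
    push_cast
    have h3 : (0 : ℚ) ≤ (s' : ℚ) + 1 := by positivity
    have := mul_le_mul_of_nonneg_right h2 h3
    linarith

/-- The numerical condition. -/
lemma numerics {n d M r : ℕ} {x y b E L : ℚ} (hr : 0 < r) (hn : 2 ≤ n) (hd : 2 ≤ d)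
    (hM : n + 1 ≤ M) (hkey : ((n : ℚ) - d) * x ≤ E + L) (hX : 0 < M * x + b) (hyx : x ≤ y)
    (hy : ((n : ℚ) + 1) / r ≤ M * y + b) :
    2 < r * (((M : ℚ) + d - n) * y + E + (L + b)) := by
  have hr' : (0 : ℚ) < r := by exact_mod_cast hr
  have hM' : (n : ℚ) + 1 ≤ M := by exact_mod_cast hM
  have hn' : (2 : ℚ) ≤ n := by exact_mod_cast hn
  have hd' : (2 : ℚ) ≤ d := by exact_mod_cast hd
  have hM0 : (0 : ℚ) < M := by linarith
  have hrY : (n : ℚ) + 1 ≤ r * (M * y + b) := by
    rw [div_le_iff₀ hr'] at hy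
    linarith
  rcases le_or_gt n d with hnd | hnd
  · have hnd' : (n : ℚ) ≤ d := by exact_mod_cast hnd
    have h1 : M * y + b ≤ ((M : ℚ) + d - n) * y + E + (L + b) := by
      nlinarith [mul_le_mul_of_nonneg_left hyx (sub_nonneg.mpr hnd')]
    have h2 := mul_le_mul_of_nonneg_left h1 hr'.le
    linarith
  · have hnd' : (d : ℚ) ≤ n := by exact_mod_cast hnd.le
    set t : ℚ := n - d with ht
    have ht0 : 0 ≤ t := sub_nonneg.mpr hnd'
    -- `M * expression ≥ (M - t) Y + t X`
    have h1 : ((M : ℚ) - t) * (M * y + b) + t * (M * x + b) ≤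
        M * (((M : ℚ) + d - n) * y + E + (L + b)) := by
      nlinarith [mul_le_mul_of_nonneg_left hkey hM0.le]
    have h2 : 0 ≤ t * (M * x + b) := mul_nonneg ht0 hX.le
    have h3 : 0 ≤ (M : ℚ) - t := by linarith
    have h4 : ((M : ℚ) - t) * (n + 1) ≤ ((M : ℚ) - t) * (r * (M * y + b)) :=
      mul_le_mul_of_nonneg_left hrY h3
    have h5 : 3 * (M : ℚ) ≤ ((M : ℚ) - t) * (n + 1) := by nlinarith
    have h6 := mul_le_mul_of_nonneg_left h1 hr'.le
    have h7 : 0 ≤ r * (t * (M * x + b)) := mul_nonneg hr'.le h2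
    have h8 : 3 * (M : ℚ) ≤ M * (r * (((M : ℚ) + d - n) * y + E + (L + b))) := by
      calc 3 * (M : ℚ) ≤ ((M : ℚ) - t) * (r * (M * y + b)) := h5.trans h4
        _ ≤ r * (((M : ℚ) - t) * (M * y + b) + t * (M * x + b)) := by linarith
        _ ≤ r * (M * (((M : ℚ) + d - n) * y + E + (L + b))) := h6
        _ = _ := by ring
    have h9 : (3 : ℚ) ≤ r * (((M : ℚ) + d - n) * y + E + (L + b)) := by
      have : (M : ℚ) * 3 ≤ M * (r * (((M : ℚ) + d - n) * y + E + (L + b))) := by linarith
      exact le_of_mul_le_mul_left this hM0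
    linarith

/-- No singular rational point: Euler's formula. -/
lemma exists_pderiv {n d : ℕ} (hd : 0 < d) {g : Option k → Matrix (Fin n) (Fin n) K}
    {μ : Option k → K} {F : GlobalSection g d μ} (hF : NoSingularRationalPoint F)
    (ξ : Fin n → K) (hξ : ξ ≠ 0) : ∃ i, eval ξ (pderiv i F.form) ≠ 0 := by
  have : CharZero K := charZero_of_injective_algebraMap (algebraMap k K).injective
  by_contra hcon
  push Not at hcon
  obtain ⟨i, hi⟩ := hF ξ hξ (by
    have h1 := congrArg (eval ξ) (form_isHomogeneous F).sum_X_mul_pderiv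
    rw [map_sum] at h1
    simp only [map_mul, eval_X, nsmul_eq_mul, map_natCast, hcon, mul_zero,
      Finset.sum_const_zero] at h1
    have h2 : (d : K) ≠ 0 := by exact_mod_cast hd.ne'
    exact (mul_eq_zero.mp h1.symm).resolve_left h2)
  exact hi (hcon i)

/-- The product formula on the curve. -/
lemma finsum_ordOver {f : K} (hf : f ≠ 0) : ∑ᶠ a, ordOver (k := k) a f = 0 :=
  finsum_ordAt (norm_ne_zero' hf)

lemma ordOver_support {f : K} (hf : f ≠ 0) :
    (Function.support fun a => ordOver (k := k) a f).Finite :=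
  ordAt_support_finite (norm_ne_zero' hf)

/-- If `F` does not vanish at the section of `ℙ(E)` given by a quotient line bundle `Q`, then
`d deg Q + deg M ≥ 0`. -/
lemma line_quotient {n d : ℕ} {g : Option k → Matrix (Fin n) (Fin n) K} (hg : IsBundle g)
    {μ : Option k → K} (hμ : IsLineBundle μ) (F : GlobalSection g d μ)
    {A : Matrix (Fin 1) (Fin n) K} (hA : A.rank = 1) {h : Option k → Matrix (Fin 1) (Fin 1) K}
    (hh : Curve.IsQuotientBundle g A h) (hF : ∃ η : Fin 1 → K, eval (Aᵀ *ᵥ η) F.form ≠ 0) :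
    0 ≤ d * Curve.degree h + lineDegree μ := by
  have : CharZero K := charZero_of_injective_algebraMap (algebraMap k K).injective
  obtain ⟨η, hη⟩ := hF
  obtain ⟨R, hAR⟩ := exists_right_inv hA
  have hhb : IsBundle h := quotient_isBundle hg hAR (light_quotient' hh)
  -- the value at the covector `A`
  set ξ : Fin n → K := Aᵀ *ᵥ (fun _ => 1) with hξ
  have hsc : ∀ a : Option k, ∃ c ∈ regRing k K a,
      eval ξ F.form = μ a * (h a).det ^ d * c := by
    intro a
    have h3 : ∀ j : Fin n, ∃ b ∈ regRing k K a,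
        (∑ i, g a i j * ξ i) = (h a).det * b := by
      intro j
      have h4 : A *ᵥ (g a *ᵥ Pi.single j 1) ∈ Curve.lattice a (h a) := by
        rw [(hh a).2]
        refine ⟨g a *ᵥ Pi.single j 1, ⟨Pi.single j 1, ?_, rfl⟩, rfl⟩
        intro i
        by_cases hi : i = j
        · subst hi
          rw [Pi.single_eq_same]
          exact one_mem (Curve.regularRing k K a)
        · rw [Pi.single_eq_of_ne hi]
          exact zero_mem (Curve.regularRing k K a)
      obtain ⟨b, hb, hb2⟩ := h4
      refine ⟨b 0, hb 0, ?_⟩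
      have h5 := congrFun hb2 0
      simp only [mulVec, dotProduct, Fin.sum_univ_one, Pi.single_apply, mul_ite, mul_one,
        mul_zero, Finset.sum_ite_eq', Finset.mem_univ, if_true] at h5
      rw [Matrix.det_fin_one, h5]
      refine Finset.sum_congr rfl fun i _ => ?_
      rw [hξ]
      simp [mulVec, dotProduct, mul_comm]
    choose b hb hb2 using h3
    have e1 : polar d F.form (fun _ => ξ) = (d.factorial : K) * eval ξ F.form := by
      rw [polar_apply, ← coeff_pow_Dl ξ (form_isHomogeneous F)]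
      simp
    have h1 : F.form = C (μ a) * sub (g a)
      (map (algebraMap (Curve.regularRing k K a) K) (F.loc a)) := F.eq a
    have e2 : polar d F.form (fun _ => ξ) = μ a * ((h a).det ^ d *
        polar d (map (algebraMap (Curve.regularRing k K a) K) (F.loc a)) (fun _ => b)) := by
      rw [h1, polar_C_mul, polar_sub]
      have e3 : (g a)ᵀ *ᵥ ξ = (h a).det • b := by
        funext j
        rw [Pi.smul_apply, smul_eq_mul, ← hb2 j]
        rfl
      rw [e3]
      have e4 := (polar d (map (algebraMap (Curve.regularRing k K a) K)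
        (F.loc a))).map_smul_univ (fun _ : Fin d => (h a).det) (fun _ => b)
      rw [e4, Finset.prod_const, Finset.card_univ, Fintype.card_fin, smul_eq_mul]
    have hfac : (d.factorial : K) ≠ 0 := by exact_mod_cast d.factorial_ne_zero
    refine ⟨(d.factorial : K)⁻¹ * polar d
      (map (algebraMap (Curve.regularRing k K a) K) (F.loc a)) (fun _ => b), ?_, ?_⟩
    · refine mul_mem ?_ (polar_regular _ fun _ i => hb i)
      have e5 : (d.factorial : K)⁻¹ = algebraMap k K ((d.factorial : k)⁻¹) := by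
        rw [map_inv₀, map_natCast]
      rw [e5]
      exact (Curve.regularRing k K a).algebraMap_mem _
    · have e6 : eval ξ F.form = (d.factorial : K)⁻¹ * polar d F.form (fun _ => ξ) := by
        rw [e1, inv_mul_cancel_left₀ hfac]
      rw [e6, e2]
      ring
  have hξF : eval ξ F.form ≠ 0 := by
    intro h0
    apply hη
    have e1 : Aᵀ *ᵥ η = η 0 • ξ := by
      funext i
      simp [hξ, mulVec, dotProduct, mul_comm]
    have e2 : ∀ (t : K) (v : Fin n → K), eval (t • v) F.form = t ^ d * eval v F.form := by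
      intro t v
      have hfac : (d.factorial : K) ≠ 0 := by exact_mod_cast d.factorial_ne_zero
      have e3 : ∀ v : Fin n → K, polar d F.form (fun _ => v) =
          (d.factorial : K) * eval v F.form := by
        intro v
        rw [polar_apply, ← coeff_pow_Dl v (form_isHomogeneous F)]
        simp
      have e4 := (polar d F.form).map_smul_univ (fun _ : Fin d => t) (fun _ => v)
      rw [e3, e3, Finset.prod_const, Finset.card_univ, Fintype.card_fin, smul_eq_mul] at e4
      apply mul_left_cancel₀ hfac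
      rw [e4]
      ring
    rw [e1, e2, h0, mul_zero]
  have hle : ∀ a, ordOver a (μ a) + d * ordOver a (h a).det ≤ ordOver a (eval ξ F.form) := by
    intro a
    obtain ⟨c, hc, hc2⟩ := hsc a
    have hc0 : c ≠ 0 := by
      rintro rfl
      rw [mul_zero] at hc2
      exact hξF hc2
    rw [hc2, ordOver_mul a (mul_ne_zero (hμ.1 a) (pow_ne_zero _ (hhb.1 a))) hc0,
      ordOver_mul a (hμ.1 a) (pow_ne_zero _ (hhb.1 a)), ordOver_pow a (hhb.1 a)]
    have := ordOver_nonneg hc0 hc
    linarith
  have f1 := lgt_support hμ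
  have f2 := support_of_bundle hhb
  have f3 := ordOver_support (k := k) hξF
  set S := (f1.union (f2.union f3)).toFinset with hS
  have hmem : ∀ a, a ∈ S ↔ (ordOver a (μ a) ≠ 0 ∨ (ordOver a (h a).det ≠ 0 ∨
      ordOver a (eval ξ F.form) ≠ 0)) := by
    intro a
    rw [hS, Set.Finite.mem_toFinset]
    rfl
  have g1 : lineDegree μ = -∑ a ∈ S, ordOver a (μ a) := by
    rw [lineDegree]
    simp only [light_ordOver]
    rw [finsum_eq_sum_of_support_subset]
    intro a ha
    exact Finset.mem_coe.mpr ((hmem a).mpr (Or.inl ha))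
  have g2 : Curve.degree h = -∑ a ∈ S, ordOver a (h a).det := by
    rw [Curve.degree]
    simp only [light_ordOver]
    rw [finsum_eq_sum_of_support_subset]
    intro a ha
    exact Finset.mem_coe.mpr ((hmem a).mpr (Or.inr (Or.inl ha)))
  have g3 : ∑ a ∈ S, ordOver a (eval ξ F.form) = 0 := by
    rw [← finsum_ordOver (k := k) hξF, finsum_eq_sum_of_support_subset]
    intro a ha
    exact Finset.mem_coe.mpr ((hmem a).mpr (Or.inr (Or.inr ha)))
  have g4 := Finset.sum_le_sum fun a (_ : a ∈ S) => hle a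
  rw [g3, Finset.sum_add_distrib, ← Finset.mul_sum] at g4
  rw [g1, g2]
  linarith

/-- Positivity on the hypersurface and `m deg M < d deg B` imply positivity on `ℙ(E)`. -/
lemma positive_of_positiveOn {n d : ℕ} (hd : 0 < d) {g : Option k → Matrix (Fin n) (Fin n) K}
    (hg : IsBundle g) {μ : Option k → K} (hμ : IsLineBundle μ) {F : GlobalSection g d μ} {m : ℕ}
    {β : Option k → K} (hA : IsPositiveOn F m β)
    (hb : m * lineDegree μ < d * lineDegree β) : IsPositive g m β := by
  refine ⟨hA.1, ?_⟩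
  intro s hs A hrk h hh
  obtain ⟨h1, h2⟩ := hA.2 s hs A hrk h hh
  have hd' : (0 : ℤ) < d := by exact_mod_cast hd
  have hm' : (0 : ℤ) < m := by exact_mod_cast hA.1
  by_cases hv : ∀ η : Fin s → K, eval (Aᵀ *ᵥ η) F.form = 0
  · exact h1 hv
  · push Not at hv
    have key : 0 < d * (m * Curve.degree h + s * lineDegree β) := by
      rcases Nat.lt_or_ge s 2 with hs2 | hs2
      · obtain rfl : s = 1 := by omega
        have h3 := line_quotient hg hμ F hrk hh hv
        have h4 := mul_nonneg hm'.le h3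
        push_cast
        nlinarith
      · have h3 := h2 hv hs2
        nlinarith
    exact (mul_pos_iff_of_pos_left hd').mp key

/-- **The main theorem.** -/
theorem main {n d : ℕ} (hn : 2 ≤ n) (hd : 2 ≤ d) {g : Option k → Matrix (Fin n) (Fin n) K}
    (hg : Curve.IsBundle g) {μ : Option k → K} (hμ : IsLineBundle μ) (F : GlobalSection g d μ)
    (hF : NoSingularRationalPoint F) {m : Fin (n + 1) → ℕ} {β : Fin (n + 1) → Option k → K}
    (hβ : ∀ i, IsLineBundle (β i))
    (hA : ∀ i, IsPositive g (m i) (β i) ∨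
      IsPositiveOn F (m i) (β i) ∧ m i * lineDegree μ < d * lineDegree (β i))
    {w : Option k → K} (hw : ∀ a, Curve.IsCanonicalGenerator a (w a)) :
    IsVeryAmple g (∑ i, m i + d - n) (fun a => w a * (g a).det * (μ a * ∏ i, β i a)) := by
  have hg' : IsBundle g := light_isBundle hg
  have hA' : ∀ i, IsPositive g (m i) (β i) := by
    intro i
    rcases hA i with h | h
    · exact h
    · exact positive_of_positiveOn (by omega) hg' hμ h.1 h.2
  obtain ⟨hB, hm, hpos⟩ := positive_sum hβ hA'
  set b : ℤ := lineDegree (fun a => ∏ i, β i a) with hb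
  set M : ℕ := ∑ i, m i with hM
  have hM0 : 0 < M := by omega
  have hposM : ∀ s : ℕ, 0 < s → ∀ A : Matrix (Fin s) (Fin n) K, A.rank = s →
      ∀ h : Option k → Matrix (Fin s) (Fin s) K, IsQuotientBundle g A h →
        (n : ℤ) + 1 ≤ M * degree h + s * b := by
    intro s hs A hrk h hh
    have := hpos s hs A hrk h hh
    push_cast at this ⊢
    exact this
  obtain ⟨x, q, A, h, hrk, hh, hxq, hx⟩ := exists_min_slope (k := k) (by omega : 0 < n) hM0
    (b := b) (fun s hs A hrk h hh => by
      have := hposM s hs A hrk h hh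
      linarith) hg'
  obtain ⟨N, rfl⟩ : ∃ N, n = N + 1 := ⟨n - 1, by omega⟩
  obtain ⟨D, rfl⟩ : ∃ D, d = D + 1 := ⟨d - 1, by omega⟩
  have hkey := key_ineq hg hμ F (fun ξ hξ => exists_pderiv (by omega) hF ξ hξ) (x := x)
    (fun s hs A hrk h hh => hx s hs A hrk h (light_quotient' hh)) hrk (light_quotient hh) hxq
  rw [light_degree] at hkey
  have hX : (0 : ℚ) < M * x + b := by
    have h1 := hposM (q + 1) (Nat.succ_pos q) A hrk h hh
    have h2 : ((N + 1 : ℕ) : ℚ) + 1 ≤ M * degree h + ((q + 1 : ℕ) : ℚ) * b := by exact_mod_cast h1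
    rw [hxq] at h2
    push_cast at h2
    have h3 : (0 : ℚ) < (q + 1) * (M * x + b) := by
      have : (0 : ℚ) < (N : ℚ) + 1 + 1 := by positivity
      nlinarith
    have h4 : (0 : ℚ) < (q : ℚ) + 1 := by positivity
    exact (mul_pos_iff_of_pos_left h4).mp h3
  obtain ⟨e, he⟩ : ∃ e, M + (D + 1) = (N + 1) + e + 1 := ⟨M + D - (N + 1), by omega⟩
  have hde : M + (D + 1) - (N + 1) = e + 1 := by omega
  rw [hde]
  have hμB : IsLineBundle (fun a => μ a * ∏ i, β i a) := by
    refine ⟨fun a => mul_ne_zero (hμ.1 a) (hB.1 a), (hμ.2.union hB.2).subset ?_⟩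
    intro a ha
    by_contra hcon
    simp only [Set.mem_union, Set.mem_ofPred_eq, not_or, not_not] at hcon
    obtain ⟨h1, h2⟩ := hcon
    apply ha
    have h1' : μ a ∈ regRing k K a ∧ (μ a)⁻¹ ∈ regRing k K a := h1
    have h2' : (∏ i, β i a) ∈ regRing k K a ∧ (∏ i, β i a)⁻¹ ∈ regRing k K a := h2
    refine ⟨mul_mem h1'.1 h2'.1, ?_⟩
    rw [mul_inv]
    exact mul_mem h1'.2 h2'.2
  have hdegB : lineDegree (fun a => μ a * ∏ i, β i a) = lineDegree μ + b := by
    rw [hb]
    simp only [lineDegree, light_ordOver]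
    have e1 : ∀ a, ordOver a (μ a * ∏ i, β i a) = ordOver a (μ a) + ordOver a (∏ i, β i a) :=
      fun a => ordOver_mul a (hμ.1 a) (hB.1 a)
    rw [finsum_congr e1, finsum_add_distrib (lgt_support hμ) (lgt_support hB)]
    ring
  refine veryAmple hg hμB hw ?_
  intro r hr hrn
  have hr' : (0 : ℚ) < r := by exact_mod_cast hr
  have hM0' : (0 : ℚ) < M := by exact_mod_cast hM0
  refine ⟨max x ((((N + 1 : ℕ) + 1 : ℚ) / r - b) / M), ?_, ?_⟩
  · intro s hs hsr A' hrk' h' hh'
    have hs' : (0 : ℚ) < s := by exact_mod_cast hs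
    rw [max_mul_of_nonneg _ _ hs'.le]
    refine max_le (hx s hs A' hrk' h' hh') ?_
    have h1 : (((N + 1 : ℕ) : ℚ) + 1) ≤ M * degree h' + s * b := by
      exact_mod_cast hposM s hs A' hrk' h' hh'
    have h2 : (((N + 1 : ℕ) : ℚ) + 1) / r * s ≤ ((N + 1 : ℕ) : ℚ) + 1 := by
      rw [div_mul_eq_mul_div, div_le_iff₀ hr']
      have : (s : ℚ) ≤ r := by exact_mod_cast hsr
      have h0 : (0 : ℚ) ≤ ((N + 1 : ℕ) : ℚ) + 1 := by positivity
      exact mul_le_mul_of_nonneg_left this h0
    rw [div_mul_eq_mul_div, div_le_iff₀ hM0']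
    nlinarith
  · rw [hdegB]
    have h1 := numerics (n := N + 1) (d := D + 1) (M := M) (r := r) (x := x)
      (y := max x ((((N + 1 : ℕ) + 1 : ℚ) / r - b) / M)) (b := b) (E := degree g)
      (L := lineDegree μ) hr hn hd (by omega) (by push_cast; linarith) hX (le_max_left _ _) (by
        have h2 := le_max_right x ((((N + 1 : ℕ) + 1 : ℚ) / r - b) / M)
        rw [div_le_iff₀ hM0'] at h2
        linarith)
    have h3 : ((e : ℚ) + 1) = (M : ℚ) + ((D + 1 : ℕ) : ℚ) - ((N + 1 : ℕ) : ℚ) := by
      have : (M : ℚ) + ((D + 1 : ℕ) : ℚ) = ((N + 1 : ℕ) : ℚ) + e + 1 := by exact_mod_cast he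
      linarith
    rw [h3]
    push_cast at h1 ⊢
    exact h1

end Pool.Agent.HF
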